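import Pool.Agent.Q145.HC.Stm
import Pool.Agent.Q272.SZ.MAJ
import Pool.Agent.Q138.GS.Tau

set_option autoImplicit false
set_option linter.all false

/-! The major arcs for the Liouville function (project HC of helper145), job MAJL (helper151). -/

namespace Pool.Agent.Q151.HC

open Finset Filter Complex MeasureTheory
open Pool.Agent.H807R2.Dav (ee norm_ee)
open Pool.Agent.Q145.SZ Pool.Agent.Q145.HC
open Pool.Agent.Q272.SZ (continuous_ee maj_int continuous_trig ee_nat_mul_add_one)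

/-- the numbers `X / j` -/
theorem div_facts (X Q j n n' : ℕ) (hQ : 1 ≤ Q) (hQX : 4 * Q ≤ X) (hj : 1 ≤ j) (hjQ : j ≤ Q)
    (hn : X ≤ n) (hnn : n ≤ n') (hn' : n' ≤ 3 * X) :
    X ≤ 2 * Q * (X / j) ∧ X / j ≤ X ∧ X / j ≤ n / j ∧ n / j ≤ n' / j ∧ n' / j ≤ 4 * (X / j) ∧
      1 ≤ X / j := by
  have h1 : j * (X / j) + X % j = X := Nat.div_add_mod X j
  have h2 : X % j < j := Nat.mod_lt X (by omega)
  have h4 : 4 ≤ X / j := by
    rw [Nat.le_div_iff_mul_le (by omega)]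
    omega
  refine ⟨?_, Nat.div_le_self _ _, Nat.div_le_div_right hn, Nat.div_le_div_right hnn, ?_, by omega⟩
  · have h5 : j * (X / j) ≤ Q * (X / j) := Nat.mul_le_mul_right _ hjQ
    have h6 : Q * 4 ≤ Q * (X / j) := Nat.mul_le_mul_left _ h4
    have h7 : 2 * Q * (X / j) = Q * (X / j) + Q * (X / j) := by ring
    rw [h7]
    omega
  · rw [Nat.div_le_iff_le_mul (by omega)]
    have h5 : 4 * (X / j) * j = 3 * (j * (X / j)) + j * (X / j) := by ring
    have h6 : j * 4 ≤ j * (X / j) := Nat.mul_le_mul_left _ h4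
    rw [h5]
    omega

/-- change of variables -/
theorem int_scale (f : ℝ → ℝ) (j δ : ℝ) (hj : 0 < j) :
    ∫ β in (-δ)..δ, f (j * β) = j⁻¹ * ∫ β in (-(j * δ))..(j * δ), f β := by
  rw [intervalIntegral.integral_comp_mul_left (fun x => f x) hj.ne', smul_eq_mul, mul_neg]

end Pool.Agent.Q151.HC

namespace Pool.Agent.Q145.HC

open Finset Filter Complex MeasureTheory
open Pool.Agent.H807R2.Dav (ee norm_ee)
open Pool.Agent.Q145.SZ
open Pool.Agent.Q272.SZ (continuous_ee maj_int continuous_trig ee_nat_mul_add_one)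
open Pool.Agent.Q151.HC

theorem t_MAJL : S_MAJL := by
  intro hGS
  obtain ⟨CG, hCG0, hCG⟩ := hGS
  refine ⟨2 * CG, 16, by positivity, fun A Q X hX hQ hQ40 hML n n' hn hnn hn' => ?_⟩
  have hXr : (16 : ℝ) ≤ X := by exact_mod_cast hX
  have hX0 : (0 : ℝ) < X := by linarith
  have hQ1r : (1 : ℝ) ≤ Q := by exact_mod_cast hQ
  have hQ40' : Q ^ 40 ≤ X := by exact_mod_cast hQ40
  have h4Q : 4 * Q ≤ X := by
    rcases hQ.eq_or_lt with h | h
    · rw [← h]; omega
    · calc 4 * Q ≤ Q ^ 2 * Q := Nat.mul_le_mul_right _ (by nlinarith)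
        _ = Q ^ 3 := by ring
        _ ≤ Q ^ 40 := Nat.pow_le_pow_right hQ (by norm_num)
        _ ≤ X := hQ40'
  have hQlt : Q < X := by omega
  have hlog0 : 0 ≤ Real.log Q := Real.log_nonneg hQ1r
  have hL0 : 0 < Real.log X := Real.log_pos (by linarith)
  have hLA : 0 < Real.log X ^ A := by positivity
  obtain ⟨δ, hδ⟩ : ∃ δ : ℝ, δ = (Q : ℝ) / X := ⟨_, rfl⟩
  have hδ0 : 0 ≤ δ := by rw [hδ]; positivity
  -- the function
  let g : ℝ → ℂ := fun α => ∑ u ∈ Ioc n n', ((lm u : ℝ) : ℂ) * ee (u * α)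
  have hg : Continuous g := continuous_trig _ _
  have hgper : ∀ x, g (x + 1) = g x := fun x => Finset.sum_congr rfl fun u _ => by rw [ee_nat_mul_add_one]
  have h1 := maj_int Q 1 X (by omega) hQ le_rfl (by rw [mul_one]; exact hQlt) (fun α => ‖g α‖ ^ 2)
    (fun x => by positivity) (by fun_prop) (fun x => by rw [hgper])
  rw [mul_one, ← hδ] at h1
  have hgi : ∀ q r : ℕ, Continuous fun β : ℝ => ‖g ((r : ℝ) / q + β)‖ ^ 2 := fun q r =>
    (hg.comp (continuous_const.add continuous_id)).norm.pow 2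
  let Sf : (j f : ℕ) → DirichletCharacter ℂ f → ℝ → ℂ := fun j f χ β =>
    ∑ u ∈ Ioc (n / j) (n' / j), xl χ u * ee (u * β)
  have hSc : ∀ (j f : ℕ) (χ : DirichletCharacter ℂ f), Continuous (Sf j f χ) := fun j f χ =>
    continuous_trig _ _
  have hSi : ∀ (j f : ℕ) (χ : DirichletCharacter ℂ f), Continuous fun β : ℝ => ‖Sf j f χ (j * β)‖ ^ 2 :=
    fun j f χ => ((hSc j f χ).comp (continuous_const.mul continuous_id)).norm.pow 2
  have h4 : ∑ q ∈ Icc 1 Q, ∑ r ∈ (range q).filter (fun r => r.Coprime q), ∫ β in (-δ)..δ, ‖g ((r : ℝ) / q + β)‖ ^ 2 ≤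
      CG * (1 + Real.log Q) ^ 6 * ∑ j ∈ Icc 1 Q, (j : ℝ) * (j.divisors.card : ℝ) *
        ∑ f ∈ Icc 1 Q, ((f : ℝ) / Nat.totient f) * ∑ χ ∈ prim f, ∫ β in (-δ)..δ, ‖Sf j f χ (j * β)‖ ^ 2 := by
    calc ∑ q ∈ Icc 1 Q, ∑ r ∈ (range q).filter (fun r => r.Coprime q), ∫ β in (-δ)..δ, ‖g ((r : ℝ) / q + β)‖ ^ 2
        = ∫ β in (-δ)..δ, ∑ q ∈ Icc 1 Q, ∑ r ∈ (range q).filter (fun r => r.Coprime q), ‖g ((r : ℝ) / q + β)‖ ^ 2 := by
          rw [intervalIntegral.integral_finset_sum]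
          · refine Finset.sum_congr rfl fun q _ => ?_
            rw [intervalIntegral.integral_finset_sum]
            exact fun r _ => (hgi q r).intervalIntegrable _ _
          · intro q _
            exact (continuous_finset_sum _ fun r _ => hgi q r).intervalIntegrable _ _
      _ ≤ ∫ β in (-δ)..δ, CG * (1 + Real.log Q) ^ 6 * ∑ j ∈ Icc 1 Q, (j : ℝ) * (j.divisors.card : ℝ) *
            ∑ f ∈ Icc 1 Q, ((f : ℝ) / Nat.totient f) * ∑ χ ∈ prim f, ‖Sf j f χ (j * β)‖ ^ 2 := by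
          refine intervalIntegral.integral_mono_on (by linarith) ?_ ?_ fun β _ => ?_
          · exact (continuous_finset_sum _ fun q _ => continuous_finset_sum _ fun r _ => hgi q r).intervalIntegrable _ _
          · exact (continuous_const.mul (continuous_finset_sum _ fun j _ => continuous_const.mul
              (continuous_finset_sum _ fun f _ => continuous_const.mul
              (continuous_finset_sum _ fun χ _ => hSi j f χ)))).intervalIntegrable _ _
          · exact hCG Q n n' β hQ hnn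
      _ = CG * (1 + Real.log Q) ^ 6 * ∑ j ∈ Icc 1 Q, (j : ℝ) * (j.divisors.card : ℝ) *
            ∑ f ∈ Icc 1 Q, ((f : ℝ) / Nat.totient f) * ∑ χ ∈ prim f, ∫ β in (-δ)..δ, ‖Sf j f χ (j * β)‖ ^ 2 := by
          rw [intervalIntegral.integral_const_mul, intervalIntegral.integral_finset_sum]
          · congr 1
            refine Finset.sum_congr rfl fun j _ => ?_
            rw [intervalIntegral.integral_const_mul, intervalIntegral.integral_finset_sum]
            · congr 1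
              refine Finset.sum_congr rfl fun f _ => ?_
              rw [intervalIntegral.integral_const_mul, intervalIntegral.integral_finset_sum]
              exact fun χ _ => (hSi j f χ).intervalIntegrable _ _
            · intro f _
              exact (continuous_const.mul (continuous_finset_sum _ fun χ _ => hSi j f χ)).intervalIntegrable _ _
          · intro j _
            exact (continuous_const.mul (continuous_finset_sum _ fun f _ => continuous_const.mul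
              (continuous_finset_sum _ fun χ _ => hSi j f χ))).intervalIntegrable _ _
  -- the mean square estimate for each `j`
  have h5 : ∀ j ∈ Icc 1 Q, ∑ f ∈ Icc 1 Q, ((f : ℝ) / Nat.totient f) * ∑ χ ∈ prim f,
      ∫ β in (-δ)..δ, ‖Sf j f χ (j * β)‖ ^ 2 ≤ (j : ℝ)⁻¹ * ((X : ℝ) / j / Real.log X ^ A) := by
    intro j hj
    rw [mem_Icc] at hj
    obtain ⟨d1, d2, d3, d4, d5, d6⟩ := div_facts X Q j n n' hQ h4Q hj.1 hj.2 hn hnn hn'
    have hj0 : (0 : ℝ) < j := by exact_mod_cast hj.1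
    have hY0 : (0 : ℝ) < (X / j : ℕ) := by exact_mod_cast d6
    have hYX : ((X / j : ℕ) : ℝ) ≤ X / j := Nat.cast_div_le
    have hML' := hML (X / j) d1 d2 (n / j) (n' / j) d3 d4 d5
    have hbd : (j : ℝ) * δ ≤ (((2 * Q : ℕ) : ℝ)) / (X / j : ℕ) := by
      rw [hδ, le_div_iff₀ hY0]
      calc (j : ℝ) * (Q / X) * ((X / j : ℕ) : ℝ) ≤ (j : ℝ) * (Q / X) * (X / j) := by gcongr
        _ = Q := by field_simp
        _ ≤ ((2 * Q : ℕ) : ℝ) := by push_cast; linarith
    have hjδ : 0 ≤ (j : ℝ) * δ := by positivity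
    have h6 : ∀ (f : ℕ) (χ : DirichletCharacter ℂ f), ∫ β in (-δ)..δ, ‖Sf j f χ (j * β)‖ ^ 2 ≤
        (j : ℝ)⁻¹ * ∫ β in (-((((2 * Q : ℕ) : ℝ)) / (X / j : ℕ)))..((((2 * Q : ℕ) : ℝ)) / (X / j : ℕ)),
          ‖Sf j f χ β‖ ^ 2 := by
      intro f χ
      rw [int_scale (fun β => ‖Sf j f χ β‖ ^ 2) j δ hj0]
      apply mul_le_mul_of_nonneg_left _ (by positivity)
      refine intervalIntegral.integral_mono_interval (by linarith) (by linarith) hbd
        (ae_of_all _ fun β => by positivity) ?_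
      exact ((hSc j f χ).norm.pow 2).intervalIntegrable _ _
    have h7 : ∀ (f : ℕ) (χ : DirichletCharacter ℂ f),
        0 ≤ ∫ β in (-((((2 * Q : ℕ) : ℝ)) / (X / j : ℕ)))..((((2 * Q : ℕ) : ℝ)) / (X / j : ℕ)),
          ‖Sf j f χ β‖ ^ 2 := fun f χ =>
      intervalIntegral.integral_nonneg (by
        have : (0 : ℝ) ≤ (((2 * Q : ℕ) : ℝ)) / (X / j : ℕ) := by positivity
        linarith) fun β _ => by positivity
    calc ∑ f ∈ Icc 1 Q, ((f : ℝ) / Nat.totient f) * ∑ χ ∈ prim f, ∫ β in (-δ)..δ, ‖Sf j f χ (j * β)‖ ^ 2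
        ≤ ∑ f ∈ Icc 1 Q, ((f : ℝ) / Nat.totient f) * ∑ χ ∈ prim f, (j : ℝ)⁻¹ *
          ∫ β in (-((((2 * Q : ℕ) : ℝ)) / (X / j : ℕ)))..((((2 * Q : ℕ) : ℝ)) / (X / j : ℕ)),
            ‖Sf j f χ β‖ ^ 2 := by
          refine Finset.sum_le_sum fun f _ => mul_le_mul_of_nonneg_left ?_ (by positivity)
          exact Finset.sum_le_sum fun χ _ => h6 f χ
      _ = (j : ℝ)⁻¹ * ∑ f ∈ Icc 1 Q, ((f : ℝ) / Nat.totient f) * ∑ χ ∈ prim f,
          ∫ β in (-((((2 * Q : ℕ) : ℝ)) / (X / j : ℕ)))..((((2 * Q : ℕ) : ℝ)) / (X / j : ℕ)),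
            ‖Sf j f χ β‖ ^ 2 := by
          rw [Finset.mul_sum]
          refine Finset.sum_congr rfl fun f _ => ?_
          rw [← Finset.mul_sum]
          ring
      _ ≤ (j : ℝ)⁻¹ * ∑ f ∈ Icc 1 (2 * Q), ((f : ℝ) / Nat.totient f) * ∑ χ ∈ prim f,
          ∫ β in (-((((2 * Q : ℕ) : ℝ)) / (X / j : ℕ)))..((((2 * Q : ℕ) : ℝ)) / (X / j : ℕ)),
            ‖Sf j f χ β‖ ^ 2 := by
          apply mul_le_mul_of_nonneg_left _ (by positivity)
          refine Finset.sum_le_sum_of_subset_of_nonneg (Finset.Icc_subset_Icc le_rfl (by omega)) ?_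
          intro f _ _
          exact mul_nonneg (by positivity) (Finset.sum_nonneg fun χ _ => h7 f χ)
      _ ≤ (j : ℝ)⁻¹ * ((X / j : ℕ) / Real.log X ^ A) := by
          apply mul_le_mul_of_nonneg_left hML' (by positivity)
      _ ≤ (j : ℝ)⁻¹ * ((X : ℝ) / j / Real.log X ^ A) := by gcongr
  have h6 : ∑ j ∈ Icc 1 Q, (j : ℝ) * (j.divisors.card : ℝ) *
        ∑ f ∈ Icc 1 Q, ((f : ℝ) / Nat.totient f) * ∑ χ ∈ prim f, ∫ β in (-δ)..δ, ‖Sf j f χ (j * β)‖ ^ 2 ≤
      (X / Real.log X ^ A) * (1 + Real.log Q) ^ 2 := by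
    have h7 := Pool.Agent.Q138.GS.tau_H 1 Q
    rw [pow_one] at h7
    simp only [pow_one] at h7
    calc _ ≤ ∑ j ∈ Icc 1 Q, (j : ℝ) * (j.divisors.card : ℝ) * ((j : ℝ)⁻¹ * ((X : ℝ) / j / Real.log X ^ A)) :=
          Finset.sum_le_sum fun j hj => mul_le_mul_of_nonneg_left (h5 j hj) (by positivity)
      _ = (X / Real.log X ^ A) * ∑ j ∈ Icc 1 Q, (j.divisors.card : ℝ) / j := by
          rw [Finset.mul_sum]
          refine Finset.sum_congr rfl fun j hj => ?_
          have hj0 : (0 : ℝ) < j := by exact_mod_cast (mem_Icc.1 hj).1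
          field_simp
      _ ≤ _ := mul_le_mul_of_nonneg_left h7 (by positivity)
  calc ∫ α in Set.Icc (0 : ℝ) 1 ∩ Maj Q 1 X, ‖∑ u ∈ Ioc n n', ((lm u : ℝ) : ℂ) * ee (u * α)‖ ^ 2
      ≤ 2 * ∑ q ∈ Icc 1 Q, ∑ r ∈ (range q).filter (fun r => r.Coprime q), ∫ β in (-δ)..δ, ‖g ((r : ℝ) / q + β)‖ ^ 2 := h1
    _ ≤ 2 * (CG * (1 + Real.log Q) ^ 6 * ((X / Real.log X ^ A) * (1 + Real.log Q) ^ 2)) := by
        apply mul_le_mul_of_nonneg_left _ (by norm_num)
        exact h4.trans (mul_le_mul_of_nonneg_left h6 (by positivity))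
    _ = 2 * CG * (1 + Real.log Q) ^ 8 * X / Real.log X ^ A := by ring

end Pool.Agent.Q145.HC
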