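import Pool.Agent.Q145.HC.Stm
import Pool.Agent.Q58.SZ.Mom2

set_option autoImplicit false
set_option linter.all false

/-! The exceptional and the diagonal pairs (project HC of helper145), job MOME (helper151). -/

namespace Pool.Agent.Q145.HC

open Finset Filter Pool.Agent.Q145.SZ Pool.Agent.Q58.SZ

theorem t_MOME : S_MOME := by
  classical
  intro W _ X K C₀ D₀ e₂ S E hWX hC₀ hD₀ he₂ hS H2' H3 H4 HE
  have hWp : 0 < W := Nat.pos_of_ne_zero (NeZero.ne W)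
  have hXp : 0 < X := lt_of_lt_of_le hWp hWX
  have hWr : (0 : ℝ) < W := by exact_mod_cast hWp
  have hXr : (0 : ℝ) < X := by exact_mod_cast hXp
  have hv : (1 : ℝ) ≤ vv W := one_le_vv
  have hv2 : (1 : ℝ) ≤ vv W ^ 2 := one_le_pow₀ hv
  obtain ⟨A, hA⟩ : ∃ A : ℝ, A = ((Ad W K).card : ℝ) := ⟨_, rfl⟩
  have hA0 : 0 ≤ A := by rw [hA]; exact Nat.cast_nonneg _
  obtain ⟨P, hP⟩ : ∃ P : Finset (ℕ × ℕ), P = (Ioc X (2 * X) ×ˢ Ioc X (2 * X)).filter
    (fun q => q ∈ E ∨ q.1 = q.2) := ⟨_, rfl⟩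
  obtain ⟨Q, hQ⟩ : ∃ Q : ℕ × ℕ → ℝ, ∀ q, Q q = ∑ b : Fin K → ZMod W,
    w2 (q.1 : ZMod W) (q.2 : ZMod W) b * ∏ i, (B2 X q.1 q.2 (b i) / vv W ^ 2) :=
    ⟨_, fun _ => rfl⟩
  -- reduction
  have h1 : ∑ b ∈ Ad W K, (∑ s ∈ Sb X b, (∑ q ∈ P, ∏ i, wt (q.1 + s i) * wt (q.2 + s i)) /
      Mb X b ^ 2) / (Sb X b).card ≤ ((W : ℝ) / X) ^ 2 * ∑ q ∈ P, Q q := by
    have e1 : ∀ b : Fin K → ZMod W, (∑ s ∈ Sb X b, (∑ q ∈ P, ∏ i, wt (q.1 + s i) * wt (q.2 + s i)) /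
        Mb X b ^ 2) / (Sb X b).card = ∑ q ∈ P, (∏ i, B2 X q.1 q.2 (b i)) / Mb X b ^ 2 := by
      intro b
      rw [← Finset.sum_div, div_right_comm, Finset.sum_comm, Finset.sum_div, Finset.sum_div]
      refine Finset.sum_congr rfl fun q _ => ?_
      congr 1
      have e3 : ∑ s ∈ Sb X b, ∏ i, (wt (q.1 + s i) * wt (q.2 + s i)) =
          ∏ i, ∑ t ∈ cls X (b i), wt (q.1 + t) * wt (q.2 + t) := by
        rw [Finset.prod_univ_sum]
        rfl
      rw [e3, card_Sb, ← Finset.prod_div_distrib]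
      rfl
    have e2 : ∀ b : Fin K → ZMod W, ∑ q ∈ P, (∏ i, B2 X q.1 q.2 (b i)) / Mb X b ^ 2 =
        ∑ q ∈ P, ((W : ℝ) / X) ^ 2 * (w2 (q.1 : ZMod W) (q.2 : ZMod W) b *
          ∏ i, (B2 X q.1 q.2 (b i) / vv W ^ 2)) := by
      intro b
      refine Finset.sum_congr rfl fun q hq => ?_
      rw [hP, Finset.mem_filter, Finset.mem_product] at hq
      exact term_eq hXp b (H2' q.1 hq.1.1 q.2 hq.1.2)
    simp only [e1, e2]
    rw [Finset.sum_comm, Finset.mul_sum]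
    refine Finset.sum_le_sum fun q _ => ?_
    rw [← Finset.mul_sum, hQ]
    refine mul_le_mul_of_nonneg_left ?_ (sq_nonneg _)
    refine Finset.sum_le_sum_of_subset_of_nonneg (Finset.subset_univ _) fun b _ _ => ?_
    exact mul_nonneg (w2_nonneg _ _ _) (Finset.prod_nonneg fun i _ =>
      div_nonneg (B2_nonneg _ _ _ _) (sq_nonneg _))
  -- bound of the terms
  have h2 : ∀ q ∈ P, Q q ≤
      (if q.1 ≠ q.2 then C₀ ^ K * A * S q.1 q.2 ^ K else 0) +
        (if q.1 = q.2 then D₀ ^ K * A else 0) := by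
    intro q hq
    rw [hP, Finset.mem_filter, Finset.mem_product] at hq
    obtain ⟨⟨hn, hm⟩, _⟩ := hq
    rw [hQ]
    by_cases hnm : q.1 = q.2
    · rw [if_neg (by simp [hnm]), if_pos hnm, zero_add, hA]
      refine Q_le X q.1 q.2 _ _ D₀ fun β => ?_
      refine (div_le_self (B2_nonneg _ _ _ _) hv2).trans ?_
      rw [← hnm]
      exact H4 q.1 hn β
    · rw [if_pos hnm, if_neg hnm, add_zero]
      have := Q_le (K := K) X q.1 q.2 (q.1 : ZMod W) (q.2 : ZMod W) (C₀ * S q.1 q.2) (fun β => by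
        rw [div_le_iff₀ (by positivity)]
        refine (H3 q.1 hn q.2 hm hnm β).trans (le_of_eq ?_)
        ring)
      rw [mul_pow] at this
      refine this.trans (le_of_eq ?_)
      rw [hA]
      ring
  -- the two sums
  have h3 : ∑ q ∈ P, Q q ≤ C₀ ^ K * A * (e₂ * (X : ℝ) ^ 2) + X * (D₀ ^ K * A) := by
    refine (Finset.sum_le_sum h2).trans ?_
    rw [Finset.sum_add_distrib]
    refine add_le_add ?_ ?_
    · have e1 : ∑ q ∈ P, (if q.1 ≠ q.2 then C₀ ^ K * A * S q.1 q.2 ^ K else 0) =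
          C₀ ^ K * A * ∑ q ∈ E.filter (fun q => q.1 ∈ Ioc X (2 * X) ∧ q.2 ∈ Ioc X (2 * X) ∧
            q.1 ≠ q.2), S q.1 q.2 ^ K := by
        rw [Finset.mul_sum, ← Finset.sum_filter]
        refine Finset.sum_congr ?_ fun q _ => rfl
        rw [hP]
        ext q
        simp only [Finset.mem_filter, Finset.mem_product]
        constructor
        · rintro ⟨⟨⟨h1, h2⟩, h3⟩, h4⟩
          exact ⟨h3.resolve_right h4, h1, h2, h4⟩
        · rintro ⟨h1, h2, h3, h4⟩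
          exact ⟨⟨⟨h2, h3⟩, Or.inl h1⟩, h4⟩
      rw [e1]
      exact mul_le_mul_of_nonneg_left HE (mul_nonneg (pow_nonneg hC₀ K) hA0)
    · have e1 : ∑ q ∈ P, (if q.1 = q.2 then D₀ ^ K * A else 0) ≤
          ∑ q ∈ Ioc X (2 * X) ×ˢ Ioc X (2 * X), (if q.1 = q.2 then D₀ ^ K * A else 0) := by
        rw [hP]
        refine Finset.sum_le_sum_of_subset_of_nonneg (Finset.filter_subset _ _) fun q _ _ => ?_
        split_ifs
        · exact mul_nonneg (pow_nonneg hD₀ K) hA0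
        · exact le_rfl
      refine e1.trans (le_of_eq ?_)
      rw [Finset.sum_product]
      have e2 : ∀ n ∈ Ioc X (2 * X), ∑ m ∈ Ioc X (2 * X),
          (if n = m then D₀ ^ K * A else 0) = D₀ ^ K * A := by
        intro n hn
        rw [Finset.sum_ite_eq (Ioc X (2 * X)) n, if_pos hn]
      rw [Finset.sum_congr rfl e2, Finset.sum_const, Nat.card_Ioc, nsmul_eq_mul]
      have : ((2 * X - X : ℕ) : ℝ) = X := by
        congr 1
        omega
      rw [this]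
  have h4 := h1.trans (mul_le_mul_of_nonneg_left h3 (sq_nonneg _))
  have h5 : ((W : ℝ) / X) ^ 2 * (C₀ ^ K * A * (e₂ * (X : ℝ) ^ 2) + X * (D₀ ^ K * A)) =
      ((W : ℝ) ^ 2 * C₀ ^ K * e₂ + (W : ℝ) ^ 2 * D₀ ^ K / X) * (Ad W K).card := by
    rw [← hA]
    field_simp
  rw [h5, hP] at h4
  exact h4

end Pool.Agent.Q145.HC
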