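import Pool.Agent.Q145.HC.Stm
import Pool.Agent.Q14.SZ.D

set_option autoImplicit false
set_option linter.all false

/-! The correlations of the Liouville function (project HC of helper145), job LCOR (helper151). -/

namespace Pool.Agent.Q151.HC

open Finset MeasureTheory Pool.Agent.Q145.SZ Pool.Agent.Q145.HC Pool.Agent.Q14.SZ
open Pool.Agent.H807R2.Dav (ee)

theorem root_le' (w x : ℝ) (k : ℕ) (hk : k ≠ 0) (hw : 0 ≤ w) (h : w ^ k ≤ x) :
    w ≤ x ^ (1 / (k : ℝ)) := by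
  have h1 : (w ^ k) ^ (1 / (k : ℝ)) ≤ x ^ (1 / (k : ℝ)) :=
    Real.rpow_le_rpow (by positivity) h (by positivity)
  rwa [one_div, Real.pow_rpow_inv_natCast hw hk, ← one_div] at h1

theorem lm_sq (u : ℕ) : lm u ^ 2 = 1 := by
  unfold lm
  rw [← pow_mul, mul_comm, pow_mul]
  norm_num

theorem sum_ind_sq (X : ℕ) : ∑ u ∈ range (3 * X + 1), ind X (3 * X) lm u ^ 2 = 2 * (X : ℝ) := by
  have h : ∀ u ∈ range (3 * X + 1), ind X (3 * X) lm u ^ 2 =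
      if u ∈ Ioc X (3 * X) then (1 : ℝ) else 0 := by
    intro u _
    rw [ind_sq]
    unfold ind
    split_ifs
    · exact lm_sq u
    · rfl
  rw [sum_congr rfl h, sum_ite_mem]
  have h2 : range (3 * X + 1) ∩ Ioc X (3 * X) = Ioc X (3 * X) := by
    refine inter_eq_right.2 fun u hu => ?_
    rw [mem_Ioc] at hu
    rw [mem_range]
    omega
  rw [h2, sum_const, Nat.card_Ioc, nsmul_eq_mul, mul_one, Nat.cast_sub (by omega)]
  push_cast
  ring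

theorem cls_one (X : ℕ) : cls X (0 : ZMod 1) = Icc 1 X := by
  unfold cls
  exact filter_true_of_mem fun s _ => Subsingleton.elim _ _

theorem circL (hENG : S_ENG) (Q X : ℕ) (δ DD : ℝ) (hδ0 : 0 ≤ δ)
    (hmin : ∀ n ∈ Ioc X (2 * X), ∀ α ∉ Maj Q 1 X,
      ‖∑ u ∈ Ioc n (n + X), ((lm u : ℝ) : ℂ) * ee (u * α)‖ ≤ δ)
    (hmaj : ∀ n n' : ℕ, X ≤ n → n ≤ n' → n' ≤ 3 * X →
      ∫ α in Set.Icc (0 : ℝ) 1 ∩ Maj Q 1 X,
        ‖∑ u ∈ Ioc n n', ((lm u : ℝ) : ℂ) * ee (u * α)‖ ^ 2 ≤ DD)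
    (n : ℕ) (hn : n ∈ Ioc X (2 * X)) : ∃ R₁ R₂ : ℤ → ℂ,
      (∀ m ∈ Ioc X (2 * X), (((∑ s ∈ Icc 1 X, lm (n + s) * lm (m + s) : ℝ)) : ℂ) =
          R₁ ((m : ℤ) - n) + R₂ ((m : ℤ) - n)) ∧
      (∀ h, ‖R₁ h‖ ^ 2 ≤ 4 * (DD * X)) ∧
      ∀ H : Finset ℤ, ∑ h ∈ H, ‖R₂ h‖ ^ 2 ≤ 4 * δ ^ 2 * X := by
  have hn' := hn
  rw [mem_Ioc] at hn'
  have hz : ∀ α : ℝ, ftr (3 * X) (fun _ => 0) α = 0 := by
    intro α
    unfold ftr
    exact sum_eq_zero fun u _ => by rw [Complex.ofReal_zero, zero_mul]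
  obtain ⟨R₁, R₂, h1, h2, h3⟩ := hENG (3 * X) 1 (ind n (n + X) lm) (fun _ => 0)
    (ind X (3 * X) lm) (fun _ => 0) (Maj Q 1 X) δ DD DD 0 (2 * X) (meas_Maj Q 1 X)
    (Maj_shift Q 1 X) hδ0
    (fun α hα => by
      rw [ftr_ind _ _ _ (by omega), hz, norm_zero]
      exact ⟨hmin n hn α hα, hδ0⟩)
    (by
      simp only [sub_zero]
      have : ∀ α : ℝ, ftr (3 * X) (ind n (n + X) lm) α =
          ∑ u ∈ Ioc n (n + X), ((lm u : ℝ) : ℂ) * ee (u * α) := fun α =>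
        ftr_ind _ _ _ (by omega) _ _
      simp only [this]
      exact hmaj n (n + X) hn'.1.le (by omega) (by omega))
    (by
      simp only [sub_zero]
      have : ∀ α : ℝ, ftr (3 * X) (ind X (3 * X) lm) α =
          ∑ u ∈ Ioc X (3 * X), ((lm u : ℝ) : ℂ) * ee (u * α) := fun α =>
        ftr_ind _ _ _ le_rfl _ _
      simp only [this]
      exact hmaj X (3 * X) le_rfl (by omega) le_rfl)
    (fun a => by
      refine le_of_eq (sum_eq_zero fun u _ => ?_)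
      norm_num)
    (fun a => by
      rw [← sum_ind_sq X]
      exact sum_le_sum_of_subset_of_nonneg (filter_subset _ _) fun _ _ _ => sq_nonneg _)
  refine ⟨R₁ ((n : ZMod 1) + 0), R₂ ((n : ZMod 1) + 0), ?_, ?_, ?_⟩
  · intro m hm
    have h4 := h1 ((n : ZMod 1) + 0) ((m : ℤ) - n)
    have h5 : cor (3 * X) 1 (fun _ => 0) (fun _ => 0) ((n : ZMod 1) + 0) ((m : ℤ) - n) = 0 := by
      unfold cor
      exact sum_eq_zero fun u _ => sum_eq_zero fun v _ => by rw [zero_mul]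
    rw [cor_ind 1 X n m hn hm, h5, sub_zero, cls_one] at h4
    exact h4
  · intro h
    have h4 := h2 h
    have h5 := single_le_sum (f := fun a : ZMod 1 => ‖R₁ a h‖ ^ 2) (fun a _ => sq_nonneg _)
      (mem_univ ((n : ZMod 1) + 0))
    refine h5.trans (h4.trans (le_of_eq (by ring)))
  · intro H
    refine (sum_le_sum (g := fun h => ∑ a : ZMod 1, ‖R₂ a h‖ ^ 2) fun h _ =>
      single_le_sum (f := fun a : ZMod 1 => ‖R₂ a h‖ ^ 2) (fun a _ => sq_nonneg _)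
        (mem_univ ((n : ZMod 1) + 0))).trans ?_
    refine (h3 H).trans (le_of_eq ?_)
    rw [sum_ind_sq]
    have : ∑ u ∈ range (3 * X + 1), ((fun _ : ℕ => (0 : ℝ)) u) ^ 2 = 0 :=
      sum_eq_zero fun u _ => by norm_num
    rw [this]
    ring

end Pool.Agent.Q151.HC

namespace Pool.Agent.Q145.HC

open Finset MeasureTheory Pool.Agent.Q145.SZ Pool.Agent.Q14.SZ Pool.Agent.Q151.HC
open Pool.Agent.H807R2.Dav (ee)

theorem t_LCOR : S_LCOR := by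
  classical
  intro hENG hMAJL hGSL hMINL hPWB A
  obtain ⟨C, X1, hC, hMAJ'⟩ := hMAJL hGSL
  obtain ⟨X2, hMIN'⟩ := hMINL
  obtain ⟨hPW4, z0, hPWe⟩ := hPWB
  obtain ⟨C₁, X₀, hpar⟩ := params (2 * A + 100) (200 * (8 * A + 16)) (C + 100) z0 hPW4 hPWe
  refine ⟨8 * A + 16, 2 * A + 20, C₁, X₀ + X1 + X2, ?_⟩
  intro z X hX hz1 hz2 hML
  obtain ⟨hLK, hzL, hz3, hLW, hWX, hX0⟩ := hpar z X (by omega) hz1 hz2
  obtain ⟨L, hL⟩ : ∃ L : ℝ, L = Real.log X := ⟨_, rfl⟩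
  obtain ⟨w, hw⟩ : ∃ w : ℝ, w = (PW z : ℝ) := ⟨_, rfl⟩
  obtain ⟨x, hx⟩ : ∃ x : ℝ, x = (X : ℝ) := ⟨_, rfl⟩
  obtain ⟨Q, hQ⟩ : ∃ Q : ℕ, Q = PW z ^ (8 * A + 16) := ⟨_, rfl⟩
  rw [← hL, ← hw] at hLW
  rw [← hw, ← hx] at hWX
  rw [← hL] at hLK
  rw [← hQ] at hML
  have hL100 : 100 ≤ L := by linarith
  have hL1 : 1 ≤ L := by linarith
  have hL0 : 0 < L := by linarith
  have hLC : C ≤ L := by linarith
  have hW0 : 1 ≤ PW z := Nat.one_le_iff_ne_zero.2 (NeZero.ne (PW z))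
  have hw1 : 1 ≤ w := by rw [hw]; exact_mod_cast hW0
  have hw0 : 0 < w := by linarith
  have hx0 : 0 < x := by rw [hx]; exact_mod_cast hX0
  have hLi : ∀ i, i ≤ 2 * A + 100 → L ^ i ≤ w := fun i hi =>
    (pow_le_pow_right₀ hL1 hi).trans hLW
  have hwi : ∀ i, i ≤ 200 * (8 * A + 16) → w ^ i ≤ x := fun i hi =>
    (pow_le_pow_right₀ hw1 hi).trans hWX
  have hQ1 : 1 ≤ Q := by rw [hQ]; exact Nat.one_le_pow _ _ hW0
  have hQr : (Q : ℝ) = w ^ (8 * A + 16) := by rw [hQ, hw]; push_cast; rfl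
  have hQ4 : (Q : ℝ) ^ (1 / 4 : ℝ) = w ^ (2 * A + 4) := by
    rw [hQr]
    have e1 : w ^ (8 * A + 16) = (w ^ (2 * A + 4)) ^ (4 : ℕ) := by ring
    have e2 : (1 / 4 : ℝ) = (((4 : ℕ) : ℝ))⁻¹ := by norm_num
    rw [e1, e2, Real.pow_rpow_inv_natCast (by positivity) (by norm_num)]
  have hlogQ0 : 0 ≤ Real.log Q := Real.log_natCast_nonneg Q
  have hlogQ : 1 + Real.log Q ≤ L := by
    have h1 := Real.log_le_log (by positivity) hWX
    rw [Real.log_pow, hx, ← hL] at h1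
    rw [hQr, Real.log_pow]
    have hlw : 0 ≤ Real.log w := Real.log_nonneg hw1
    push_cast at h1 ⊢
    have hA0 : (0 : ℝ) ≤ A := Nat.cast_nonneg A
    nlinarith
  -- the bounds
  obtain ⟨δ, hδ⟩ : ∃ δ : ℝ, δ = x / w ^ (2 * A + 3) := ⟨_, rfl⟩
  obtain ⟨DD, hDD⟩ : ∃ DD : ℝ, DD = x / (16 * L ^ (2 * A)) := ⟨_, rfl⟩
  obtain ⟨τ, hτ⟩ : ∃ τ : ℝ, τ = x ^ 2 / (4 * L ^ (2 * A)) := ⟨_, rfl⟩
  have hδ0 : 0 ≤ δ := by rw [hδ]; positivity
  have hτ0 : 0 < τ := by rw [hτ]; positivity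
  have hmin : ∀ n ∈ Ioc X (2 * X), ∀ α ∉ Maj Q 1 X,
      ‖∑ u ∈ Ioc n (n + X), ((lm u : ℝ) : ℂ) * ee (u * α)‖ ≤ δ := by
    intro n hn α hα
    rw [mem_Ioc] at hn
    have h1 := hMIN' Q X n (n + X) α (by omega) ?_ ?_ hn.1.le (by omega) (by omega) hα
    · refine h1.trans ?_
      rw [← hL, ← hx, hQ4, hδ, div_le_div_iff₀ (by positivity) (by positivity)]
      have e1 : w ^ (2 * A + 4) = w * w ^ (2 * A + 3) := by ring
      rw [e1, mul_assoc]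
      refine mul_le_mul_of_nonneg_left ?_ hx0.le
      exact mul_le_mul_of_nonneg_right (hLi 12 (by omega)) (by positivity)
    · rw [← hL, hQr]
      refine (hLi 60 (by omega)).trans ?_
      have h1 : w ^ 1 ≤ w ^ (8 * A + 16) := pow_le_pow_right₀ hw1 (by omega)
      rwa [pow_one] at h1
    · rw [hQr, ← hx]
      have h5 := root_le' (w ^ (8 * A + 16)) x 10 (by norm_num) (by positivity)
        (by rw [← pow_mul]; exact hwi _ (by omega))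
      have e1 : (1 : ℝ) / ((10 : ℕ) : ℝ) = 1 / 10 := by norm_num
      rwa [e1] at h5
  have hmaj : ∀ n n' : ℕ, X ≤ n → n ≤ n' → n' ≤ 3 * X →
      ∫ α in Set.Icc (0 : ℝ) 1 ∩ Maj Q 1 X,
        ‖∑ u ∈ Ioc n n', ((lm u : ℝ) : ℂ) * ee (u * α)‖ ^ 2 ≤ DD := by
    intro n n' h1 h2 h3
    have h4 := hMAJ' (2 * A + 20) Q X (by omega) hQ1 ?_ hML n n' h1 h2 h3
    · refine h4.trans ?_
      rw [← hL, ← hx, hDD, div_le_div_iff₀ (by positivity) (by positivity)]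
      have h5 : C * (1 + Real.log Q) ^ 8 ≤ L * L ^ 8 :=
        mul_le_mul hLC (pow_le_pow_left₀ (by positivity) hlogQ 8) (by positivity) hL0.le
      have h6 : (16 : ℝ) ≤ L ^ 11 := by
        calc (16 : ℝ) ≤ 100 ^ 11 := by norm_num
          _ ≤ L ^ 11 := pow_le_pow_left₀ (by norm_num) hL100 11
      calc C * (1 + Real.log Q) ^ 8 * x * (16 * L ^ (2 * A))
          ≤ (L * L ^ 8) * x * (L ^ 11 * L ^ (2 * A)) := by gcongr
        _ = x * L ^ (2 * A + 20) := by ring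
    · rw [hQr, ← hx, ← pow_mul]
      exact hwi _ (by omega)
  have hcirc := circL hENG Q X δ DD hδ0 hmin hmaj
  choose! R₁ R₂ hc1 hc2 hc3 using hcirc
  obtain ⟨g1, hg1⟩ : ∃ g1 : ℕ → ℤ → ℝ, ∀ n h, g1 n h = ‖R₂ n h‖ ^ 2 := ⟨_, fun _ _ => rfl⟩
  refine ⟨((Ioc X (2 * X)) ×ˢ (Ioc X (2 * X))).filter (fun p => τ < g1 p.1 ((p.2 : ℤ) - p.1)),
    ?_, ?_⟩
  · have hE1 : ∀ n ∈ Ioc X (2 * X),
        (((Ioc X (2 * X)).filter (fun m : ℕ => τ < g1 n ((m : ℤ) - n))).card : ℝ) ≤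
          4 * δ ^ 2 * x / τ := by
      intro n hn
      rw [le_div_iff₀ hτ0]
      refine count1 X n (g1 n) _ τ fun H => ?_
      have h1 := hc3 n hn H
      rw [hx]
      refine le_trans (le_of_eq ?_) h1
      exact sum_congr rfl fun h _ => hg1 n h
    have hF1 := count_pairs X (fun n m => τ < g1 n ((m : ℤ) - n)) _ hE1
    refine hF1.trans ?_
    rw [← hx, ← hw]
    have e1 : x * (4 * δ ^ 2 * x / τ) = x ^ 2 / w ^ A * (16 * L ^ (2 * A) / w ^ (3 * A + 6)) := by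
      rw [hδ, hτ]
      have e2 : w ^ (3 * A + 6) = (w ^ A) ^ 3 * w ^ 6 := by ring
      have e3 : w ^ (2 * A + 3) = (w ^ A) ^ 2 * w ^ 3 := by ring
      rw [e2, e3]
      field_simp
      ring
    rw [e1]
    refine mul_le_of_le_one_right (by positivity) ?_
    rw [div_le_one (by positivity)]
    have h6 : w ^ 1 ≤ w ^ (3 * A + 6) := pow_le_pow_right₀ hw1 (by omega)
    have h7 := hLi (2 * A + 1) (by omega)
    rw [pow_one] at h6
    have h8 : 16 * L ^ (2 * A) ≤ L ^ (2 * A + 1) := by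
      calc 16 * L ^ (2 * A) ≤ L * L ^ (2 * A) :=
            mul_le_mul_of_nonneg_right (by linarith) (by positivity)
        _ = L ^ (2 * A + 1) := by ring
    linarith
  · intro n hn m hm hnm hnE
    rw [mem_filter, mem_product] at hnE
    have hk1 : g1 n ((m : ℤ) - n) ≤ τ := by
      by_contra hh
      push Not at hh
      exact hnE ⟨⟨hn, hm⟩, hh⟩
    rw [hg1] at hk1
    have h1 := hc1 n hn m hm
    have h2 := hc2 n hn ((m : ℤ) - n)
    have hb : (x / (2 * L ^ A)) ^ 2 = τ := by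
      rw [hτ]
      have : L ^ (2 * A) = (L ^ A) ^ 2 := by ring
      rw [this]
      field_simp
      ring
    have h3 : ‖R₁ n ((m : ℤ) - n)‖ ≤ x / (2 * L ^ A) := by
      refine le_of_sq_le_sq ?_ (by positivity)
      rw [hb]
      refine h2.trans (le_of_eq ?_)
      rw [hDD, hτ, ← hx]
      field_simp
      ring
    have h4 : ‖R₂ n ((m : ℤ) - n)‖ ≤ x / (2 * L ^ A) := by
      refine le_of_sq_le_sq ?_ (by positivity)
      rw [hb]
      exact hk1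
    have h5 : |∑ s ∈ Icc 1 X, lm (n + s) * lm (m + s)| =
        ‖R₁ n ((m : ℤ) - n) + R₂ n ((m : ℤ) - n)‖ := by
      rw [← h1, Complex.norm_real, Real.norm_eq_abs]
    rw [h5, ← hL, ← hx]
    refine (norm_add_le _ _).trans ((add_le_add h3 h4).trans (le_of_eq ?_))
    field_simp
    ring

end Pool.Agent.Q145.HC
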